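import Pool.Agent.H24.Tri.ToolA
import Pool.Agent.H24.Tri.ToolB
import Pool.Agent.H19.TriS.Base

/-!
# TRI, section S, part A: pieces
-/

set_option autoImplicit false

open MeasureTheory Set Complex Metric Filter Topology
open scoped Real ENNReal NNReal FourierTransform ComplexConjugate

namespace Pool.Agent.H24.Tri

theorem sq_meas (s : ℝ) (n : ℤ × ℤ) : MeasurableSet (sq s n) := by
  have h1 : Measurable (fun k : ℂ => |k.re - s * n.1|) := by fun_prop
  have h2 : Measurable (fun k : ℂ => |k.im - s * n.2|) := by fun_prop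
  exact (measurableSet_le h1 measurable_const).inter (measurableSet_le h2 measurable_const)

theorem sq_diam (s : ℝ) (n : ℤ × ℤ) (x : ℂ) (hx : x ∈ sq s n) : ‖x - s * gi n‖ ≤ 2 * s := by
  obtain ⟨h1, h2⟩ := hx
  have e1 : (x - s * gi n).re = x.re - s * n.1 := by simp [gi]
  have e2 : (x - s * gi n).im = x.im - s * n.2 := by simp [gi]
  have := Complex.norm_le_abs_re_add_abs_im (x - s * gi n)
  rw [e1, e2] at this
  linarith

theorem sa_lint (a : ℂ → ℂ) (ha : Nice a) (A : Set ℂ) :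
    ∫⁻ ξ in A, ‖a ξ‖ₑ ^ 2 = ENNReal.ofReal (∫ ξ in A, ‖a ξ‖ ^ 2) := by
  have hi : Integrable (fun ξ => ‖a ξ‖ ^ 2) (volume.restrict A) :=
    ((nice_memLp a ha).1.restrict A).integrable_norm_pow (by norm_num)
  rw [ofReal_integral_eq_lintegral_ofReal hi (ae_of_all _ fun ξ => by positivity)]
  apply lintegral_congr
  intro ξ
  rw [ENNReal.ofReal_pow (norm_nonneg _), ofReal_norm]

theorem sa_mu_apply (c : ℂ) (a : ℂ → ℂ) (ha : Nice a) {A : Set ℂ} (hA : MeasurableSet A) :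
    mu c a A = ENNReal.ofReal (∫ ξ in (fun ξ => ξ / c) ⁻¹' A, ‖a ξ‖ ^ 2) := by
  have hm : Measurable (fun ξ : ℂ => ξ / c) := by fun_prop
  unfold mu
  rw [Measure.map_apply hm hA, withDensity_apply _ (hm hA), sa_lint a ha]

theorem mu_finite (c : ℂ) (a : ℂ → ℂ) (ha : Nice a) : IsFiniteMeasure (mu c a) := by
  constructor
  rw [sa_mu_apply c a ha MeasurableSet.univ]
  exact ENNReal.ofReal_lt_top

theorem sa_mu_real (c : ℂ) (a : ℂ → ℂ) (ha : Nice a) {A : Set ℂ} (hA : MeasurableSet A) :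
    (mu c a).real A = ∫ ξ in (fun ξ => ξ / c) ⁻¹' A, ‖a ξ‖ ^ 2 := by
  rw [measureReal_def, sa_mu_apply c a ha hA, ENNReal.toReal_ofReal]
  exact integral_nonneg fun ξ => by positivity

theorem mu_univ (c : ℂ) (a : ℂ → ℂ) (ha : Nice a) :
    (mu c a).real univ = ∫ ξ, ‖a ξ‖ ^ 2 := by
  rw [sa_mu_real c a ha MeasurableSet.univ]
  simp

theorem sa_sym_zero (c : ℂ) (s : ℝ) (hs : 0 < s) (n : ℤ × ℤ) (ξ : ℂ)
    (h : ξ / c ∉ sq s n) : sym c s n ξ = 0 := by
  have e0 : ξ / (c * s) - gi n = (ξ / c) / (s : ℂ) - gi n := by rw [div_div]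
  have e1 : (ξ / (c * s) - gi n).re = (ξ / c).re / s - n.1 := by
    rw [e0, Complex.sub_re, Complex.div_ofReal_re, gi_re]
  have e2 : (ξ / (c * s) - gi n).im = (ξ / c).im / s - n.2 := by
    rw [e0, Complex.sub_im, Complex.div_ofReal_im, gi_im]
  have key : ∀ (x : ℝ) (k : ℤ), ¬ |x - s * k| ≤ s → th (x / s - k) = 0 := by
    intro x k hk
    apply th_zero
    have : x / s - k = (x - s * k) / s := by field_simp
    rw [this, abs_div, abs_of_pos hs, le_div_iff₀ hs, one_mul]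
    exact (not_le.1 hk).le
  unfold sym theta
  rw [e1, e2]
  by_cases h1 : |(ξ / c).re - s * n.1| ≤ s
  · by_cases h2 : |(ξ / c).im - s * n.2| ≤ s
    · exact absurd ⟨h1, h2⟩ h
    · rw [key _ _ h2, mul_zero]
  · rw [key _ _ h1, zero_mul]

theorem piece_zero (c : ℂ) (s : ℝ) (hs : 0 < s) (n : ℤ × ℤ) (a : ℂ → ℂ) (ξ : ℂ)
    (h : ξ / c ∉ sq s n) : piece c s n a ξ = 0 := by
  unfold piece
  rw [sa_sym_zero c s hs n ξ h]
  simp

/-- generic `L²` estimate -/
theorem sa_l2 (c : ℂ) (a : ℂ → ℂ) (ha : Nice a) (p : ℂ → ℂ) {A : Set ℂ} (hA : MeasurableSet A)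
    (h1 : ∀ ξ, ‖p ξ‖ ≤ ‖a ξ‖) (h2 : ∀ ξ, ξ / c ∉ A → p ξ = 0) :
    ∫ ξ, ‖p ξ‖ ^ 2 ≤ (mu c a).real A := by
  have hm : Measurable (fun ξ : ℂ => ξ / c) := by fun_prop
  rw [sa_mu_real c a ha hA, ← integral_indicator (hm hA)]
  apply integral_mono_of_nonneg (ae_of_all _ fun ξ => by positivity)
  · exact (((nice_memLp a ha).1.integrable_norm_pow (by norm_num)).indicator (hm hA))
  · refine ae_of_all _ fun ξ => ?_
    by_cases h : ξ / c ∈ A
    · rw [indicator_of_mem (show ξ ∈ (fun ξ => ξ / c) ⁻¹' A from h)]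
      exact pow_le_pow_left₀ (norm_nonneg _) (h1 ξ) 2
    · rw [indicator_of_notMem (show ξ ∉ (fun ξ => ξ / c) ⁻¹' A from h)]
      show ‖p ξ‖ ^ 2 ≤ 0
      rw [h2 ξ h]
      simp

theorem sa_sym_mul_norm (t : ℝ) (h0 : 0 ≤ t) (h1 : t ≤ 1) (z : ℂ) : ‖(t : ℂ) * z‖ ≤ ‖z‖ := by
  rw [norm_mul, Complex.norm_real, Real.norm_of_nonneg h0]
  exact mul_le_of_le_one_left (norm_nonneg _) h1

/-- the L² norm of a piece -/
theorem piece_l2 (c : ℂ) (hc : c ≠ 0) (s : ℝ) (hs : 0 < s) (n : ℤ × ℤ) (a : ℂ → ℂ)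
    (ha : Nice a) : ∫ ξ, ‖piece c s n a ξ‖ ^ 2 ≤ (mu c a).real (sq s n) :=
  sa_l2 c a ha _ (sq_meas s n)
    (fun ξ => sa_sym_mul_norm _ (sym_nonneg c s n ξ) (sym_le_one c s n ξ) _)
    (fun ξ h => piece_zero c s hs n a ξ h)

theorem sa_integral_mul (c : ℂ) (hc : c ≠ 0) (f : ℂ → ℝ) :
    ∫ ξ, f ξ = ‖c‖ ^ 2 * ∫ ξ, f (c * ξ) := by
  have h := tb_integral_mul c hc (fun ξ => (f ξ : ℂ))
  rw [integral_complex_ofReal, integral_complex_ofReal] at h
  exact_mod_cast h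

theorem sa_nice_scaled (t : ℂ → ℂ) (ht : Nice t) (c : ℂ) (hc : c ≠ 0) (n : ℂ) :
    Nice (fun ξ => t (ξ / c - n)) := by
  constructor
  · exact ht.smooth.comp (by fun_prop)
  · obtain ⟨R, hR⟩ := ht.compact.isCompact.isBounded.subset_closedBall (0 : ℂ)
    refine HasCompactSupport.intro (isCompact_closedBall (0 : ℂ) (‖c‖ * (R + ‖n‖))) ?_
    intro ξ hξ
    by_contra hne
    apply hξ
    have h1 : ξ / c - n ∈ closedBall (0 : ℂ) R := hR (subset_tsupport _ hne)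
    rw [mem_closedBall_zero_iff] at h1 ⊢
    have h2 : ‖ξ / c‖ ≤ R + ‖n‖ := by
      calc ‖ξ / c‖ = ‖(ξ / c - n) + n‖ := by rw [sub_add_cancel]
        _ ≤ ‖ξ / c - n‖ + ‖n‖ := norm_add_le _ _
        _ ≤ R + ‖n‖ := by linarith
    have h3 : ξ = c * (ξ / c) := by field_simp
    rw [h3, norm_mul]
    exact mul_le_mul_of_nonneg_left h2 (norm_nonneg _)

theorem sa_kernel_l1 (t : ℂ → ℂ) (ht : Nice t) (c : ℂ) (hc : c ≠ 0) (n : ℂ) :
    ∫ y, ‖𝓕⁻ (fun ξ => t (ξ / c - n)) y‖ = ∫ y, ‖𝓕⁻ t y‖ := by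
  have hc' : conj c ≠ 0 := by simpa using hc
  rw [sa_integral_mul (conj c) hc' (fun y => ‖𝓕⁻ t y‖), ← integral_const_mul]
  apply integral_congr_ae
  refine ae_of_all _ fun y => ?_
  show ‖𝓕⁻ (fun ξ => t (ξ / c - n)) y‖ = ‖conj c‖ ^ 2 * ‖𝓕⁻ t (conj c * y)‖
  rw [kernel_scaled t ht c hc n y, norm_mul, norm_mul, Complex.norm_exp_ofReal_mul_I,
    Complex.norm_real, RCLike.norm_conj, Real.norm_of_nonneg (by positivity), one_mul]

theorem sa_nice_theta : Nice (fun x => (theta x : ℂ)) where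
  smooth := Complex.ofRealCLM.contDiff.comp theta_smooth
  compact := theta_compact.comp_left Complex.ofReal_zero

/-- sup bound of a piece -/
theorem piece_sup : ∃ C : ℝ, 1 ≤ C ∧ ∀ (c : ℂ) (s : ℝ) (n : ℤ × ℤ) (a : ℂ → ℂ), c ≠ 0 → 0 < s →
    Nice a → ∀ M : ℝ, (∀ z, ‖𝓕⁻ a z‖ ≤ M) → ∀ z, ‖𝓕⁻ (piece c s n a) z‖ ≤ C * M := by
  obtain ⟨C, hC0, hC, -⟩ := kernel_bounds _ sa_nice_theta
  refine ⟨max 1 C, le_max_left _ _, ?_⟩
  intro c s n a hc hs ha M hM z
  have hM0 : 0 ≤ M := (norm_nonneg _).trans (hM 0)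
  have hcs : c * s ≠ 0 := mul_ne_zero hc (by exact_mod_cast hs.ne')
  have hm := sa_nice_scaled _ sa_nice_theta (c * s) hcs (gi n)
  have h1 := mult_conv _ a hm ha z
  have h2 : 𝓕⁻ (piece c s n a) z = ∫ y, 𝓕⁻ (fun ξ => ((theta (ξ / (c * s) - gi n) : ℝ) : ℂ)) y *
      𝓕⁻ a (z - y) := h1
  rw [h2]
  calc ‖∫ y, 𝓕⁻ (fun ξ => ((theta (ξ / (c * s) - gi n) : ℝ) : ℂ)) y * 𝓕⁻ a (z - y)‖
      ≤ ∫ y, ‖𝓕⁻ (fun ξ => ((theta (ξ / (c * s) - gi n) : ℝ) : ℂ)) y‖ * M := by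
        apply norm_integral_le_of_norm_le
        · exact (nice_integrable _ hm).2.norm.mul_const M
        · refine ae_of_all _ fun y => ?_
          rw [norm_mul]
          exact mul_le_mul_of_nonneg_left (hM _) (norm_nonneg _)
    _ = (∫ y, ‖𝓕⁻ (fun x => ((theta x : ℝ) : ℂ)) y‖) * M := by
        rw [integral_mul_const, sa_kernel_l1 _ sa_nice_theta (c * s) hcs (gi n)]
    _ ≤ max 1 C * M := mul_le_mul_of_nonneg_right (hC.trans (le_max_right _ _)) hM0

/-- partition of unity -/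
theorem piece_sum (c : ℂ) (hc : c ≠ 0) (s : ℝ) (hs : 0 < s) (a : ℂ → ℂ) (ha : Nice a) :
    ∃ F : Finset (ℤ × ℤ), ∀ F' : Finset (ℤ × ℤ), F ⊆ F' →
      (fun ξ => ∑ n ∈ F', piece c s n a ξ) = a := by
  obtain ⟨R, hR⟩ := ha.compact.isCompact.isBounded.subset_closedBall (0 : ℂ)
  have hcs : c * s ≠ 0 := mul_ne_zero hc (by exact_mod_cast hs.ne')
  obtain ⟨K, hK⟩ := exists_nat_ge (R / ‖c * s‖ + 2)
  refine ⟨Finset.Icc (-(K : ℤ)) K ×ˢ Finset.Icc (-(K : ℤ)) K, fun F' hF' => ?_⟩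
  funext ξ
  by_cases hξ : a ξ = 0
  · simp [piece, hξ]
  · have h1 : ‖ξ‖ ≤ R := by
      have := hR (subset_tsupport _ hξ)
      rwa [mem_closedBall_zero_iff] at this
    have h2 : ∑ n ∈ F', theta (ξ / (c * s) - gi n) = 1 := by
      apply theta_sum
      intro n hn
      apply hF'
      have h3 : ‖ξ / (c * s) - gi n‖ < 2 := by
        by_contra h
        exact hn (theta_zero _ (not_lt.1 h))
      have h4 : ‖gi n‖ ≤ K := by
        calc ‖gi n‖ = ‖ξ / (c * s) - (ξ / (c * s) - gi n)‖ := by rw [sub_sub_cancel]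
          _ ≤ ‖ξ / (c * s)‖ + ‖ξ / (c * s) - gi n‖ := norm_sub_le _ _
          _ ≤ R / ‖c * s‖ + 2 := by
              rw [norm_div]
              have := div_le_div_of_nonneg_right h1 (norm_nonneg (c * s))
              linarith
          _ ≤ K := hK
      have h5 : |(n.1 : ℝ)| ≤ K := by
        have := (Complex.abs_re_le_norm (gi n)).trans h4
        rwa [gi_re] at this
      have h6 : |(n.2 : ℝ)| ≤ K := by
        have := (Complex.abs_im_le_norm (gi n)).trans h4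
        rwa [gi_im] at this
      rw [Finset.mem_product, Finset.mem_Icc, Finset.mem_Icc]
      have h7 : |n.1| ≤ (K : ℤ) := by exact_mod_cast h5
      have h8 : |n.2| ≤ (K : ℤ) := by exact_mod_cast h6
      exact ⟨abs_le.1 h7, abs_le.1 h8⟩
    show ∑ n ∈ F', piece c s n a ξ = a ξ
    have h3 : ∀ n ∈ F', piece c s n a ξ = ((theta (ξ / (c * s) - gi n) : ℝ) : ℂ) * a ξ :=
      fun n _ => rfl
    rw [Finset.sum_congr rfl h3, ← Finset.sum_mul]
    have h4 : ∑ n ∈ F', ((theta (ξ / (c * s) - gi n) : ℝ) : ℂ) = 1 := by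
      rw [← Complex.ofReal_sum, h2, Complex.ofReal_one]
    rw [h4, one_mul]

/-- low frequency functions are Lipschitz -/
theorem low_lip : ∃ C : ℝ, 1 ≤ C ∧ ∀ (s : ℝ) (b : ℂ → ℂ), 0 < s → Nice b →
    (∀ ξ, s < ‖ξ‖ → b ξ = 0) → ∀ M : ℝ, (∀ z, ‖𝓕⁻ b z‖ ≤ M) →
    ∀ x y, ‖𝓕⁻ b x - 𝓕⁻ b y‖ ≤ C * s * M * ‖x - y‖ := by
  obtain ⟨C, hC0, -, -, -, hC⟩ := kernel_bounds _ nice_chi
  refine ⟨max 1 C, le_max_left _ _, ?_⟩
  intro s b hs hb hsupp M hM x y
  have hM0 : 0 ≤ M := (norm_nonneg _).trans (hM 0)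
  have hsc : (s : ℂ) ≠ 0 := by exact_mod_cast hs.ne'
  have hm : Nice (fun ξ => chiC (ξ / (s : ℂ) - 0)) := sa_nice_scaled _ nice_chi (s : ℂ) hsc 0
  have hbm : (fun ξ => chiC (ξ / (s : ℂ) - 0) * b ξ) = b := by
    funext ξ
    by_cases h : s < ‖ξ‖
    · rw [hsupp ξ h, mul_zero]
    · have h1 : ‖ξ / (s : ℂ) - 0‖ ≤ 1 := by
        rw [sub_zero, norm_div, Complex.norm_real, Real.norm_of_nonneg hs.le, div_le_one hs]
        exact not_lt.1 h
      show chiC (ξ / (s : ℂ) - 0) * b ξ = b ξ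
      rw [chiC, chi_one _ h1, Complex.ofReal_one, one_mul]
  set K : ℂ → ℂ := 𝓕⁻ (fun ξ => chiC (ξ / (s : ℂ) - 0)) with hK
  have hconv : ∀ z, 𝓕⁻ b z = ∫ u, K (z - u) * 𝓕⁻ b u := by
    intro z
    have h1 := mult_conv _ b hm hb z
    rw [hbm] at h1
    rw [h1, ← integral_sub_left_eq_self _ volume z]
    apply integral_congr_ae
    refine ae_of_all _ fun u => ?_
    show K (z - u) * 𝓕⁻ b (z - (z - u)) = K (z - u) * 𝓕⁻ b u
    rw [sub_sub_cancel]
  have hKint : Integrable K := (nice_integrable _ hm).2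
  have hbc : Continuous (𝓕⁻ b) := nice_continuous b hb
  have hint : ∀ z, Integrable (fun u => K (z - u) * 𝓕⁻ b u) := by
    intro z
    refine (hKint.comp_sub_left z).mul_bdd (c := M) hbc.aestronglyMeasurable
      (ae_of_all _ hM)
  have hKs : ∀ w, K w = ((s ^ 2 : ℝ) : ℂ) * 𝓕⁻ chiC ((s : ℂ) * w) := by
    intro w
    rw [hK, kernel_scaled _ nice_chi (s : ℂ) hsc 0 w, Complex.conj_ofReal, Complex.norm_real,
      Real.norm_of_nonneg hs.le]
    simp
  rw [hconv x, hconv y, ← integral_sub (hint x) (hint y)]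
  have hd : Integrable (fun u => ‖K (x - u) - K (y - u)‖) :=
    ((hKint.comp_sub_left x).sub (hKint.comp_sub_left y)).norm
  calc ‖∫ u, (K (x - u) * 𝓕⁻ b u - K (y - u) * 𝓕⁻ b u)‖
      ≤ ∫ u, ‖K (x - u) - K (y - u)‖ * M := by
        apply norm_integral_le_of_norm_le (hd.mul_const M)
        refine ae_of_all _ fun u => ?_
        show ‖K (x - u) * 𝓕⁻ b u - K (y - u) * 𝓕⁻ b u‖ ≤ ‖K (x - u) - K (y - u)‖ * M
        rw [← sub_mul, norm_mul]
        exact mul_le_mul_of_nonneg_left (hM _) (norm_nonneg _)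
    _ = (∫ u, ‖K (x - u) - K (y - u)‖) * M := integral_mul_const _ _
    _ = (∫ w, ‖K (w + (x - y)) - K w‖) * M := by
        congr 1
        rw [← integral_sub_left_eq_self (fun w => ‖K (w + (x - y)) - K w‖) volume y]
        apply integral_congr_ae
        refine ae_of_all _ fun u => ?_
        show ‖K (x - u) - K (y - u)‖ = ‖K (y - u + (x - y)) - K (y - u)‖
        congr 3
        ring
    _ = (∫ w, ‖𝓕⁻ chiC (w + s * (x - y)) - 𝓕⁻ chiC w‖) * M := by
        congr 1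
        rw [sa_integral_mul (s : ℂ) hsc (fun w => ‖𝓕⁻ chiC (w + s * (x - y)) - 𝓕⁻ chiC w‖),
          ← integral_const_mul]
        apply integral_congr_ae
        refine ae_of_all _ fun w => ?_
        show ‖K (w + (x - y)) - K w‖ =
          ‖(s : ℂ)‖ ^ 2 * ‖𝓕⁻ chiC ((s : ℂ) * w + s * (x - y)) - 𝓕⁻ chiC ((s : ℂ) * w)‖
        rw [hKs, hKs, ← mul_sub, norm_mul, mul_add, Complex.norm_real, Complex.norm_real,
          Real.norm_of_nonneg hs.le, Real.norm_of_nonneg (by positivity : (0 : ℝ) ≤ s ^ 2)]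
    _ ≤ (C * ‖(s : ℂ) * (x - y)‖) * M := mul_le_mul_of_nonneg_right (hC _) hM0
    _ = C * (s * M * ‖x - y‖) := by
        rw [norm_mul, Complex.norm_real, Real.norm_of_nonneg hs.le]
        ring
    _ ≤ max 1 C * (s * M * ‖x - y‖) :=
        mul_le_mul_of_nonneg_right (le_max_right _ _) (by positivity)
    _ = max 1 C * s * M * ‖x - y‖ := by ring

/-- a sum of symbols is at most one -/
theorem sa_sym_sum (c : ℂ) (hc : c ≠ 0) (s : ℝ) (hs : 0 < s) (F : Finset (ℤ × ℤ)) (ξ : ℂ) :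
    ∑ l ∈ F, sym c s l ξ ≤ 1 := by
  classical
  set x : ℂ := ξ / (c * s) with hx
  obtain ⟨K, hK⟩ := exists_nat_ge (‖x‖ + 2)
  set G : Finset (ℤ × ℤ) := Finset.Icc (-(K : ℤ)) K ×ˢ Finset.Icc (-(K : ℤ)) K with hG
  have h2 : ∑ n ∈ F ∪ G, theta (x - gi n) = 1 := by
    apply theta_sum
    intro n hn
    apply Finset.mem_union_right
    have h3 : ‖x - gi n‖ < 2 := by
      by_contra h
      exact hn (theta_zero _ (not_lt.1 h))
    have h4 : ‖gi n‖ ≤ K := by
      calc ‖gi n‖ = ‖x - (x - gi n)‖ := by rw [sub_sub_cancel]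
        _ ≤ ‖x‖ + ‖x - gi n‖ := norm_sub_le _ _
        _ ≤ ‖x‖ + 2 := by linarith
        _ ≤ K := hK
    have h5 : |(n.1 : ℝ)| ≤ K := by
      have := (Complex.abs_re_le_norm (gi n)).trans h4
      rwa [gi_re] at this
    have h6 : |(n.2 : ℝ)| ≤ K := by
      have := (Complex.abs_im_le_norm (gi n)).trans h4
      rwa [gi_im] at this
    rw [hG, Finset.mem_product, Finset.mem_Icc, Finset.mem_Icc]
    have h7 : |n.1| ≤ (K : ℤ) := by exact_mod_cast h5
    have h8 : |n.2| ≤ (K : ℤ) := by exact_mod_cast h6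
    exact ⟨abs_le.1 h7, abs_le.1 h8⟩
  calc ∑ l ∈ F, sym c s l ξ = ∑ l ∈ F, theta (x - gi l) := rfl
    _ ≤ ∑ l ∈ F ∪ G, theta (x - gi l) :=
        Finset.sum_le_sum_of_subset_of_nonneg Finset.subset_union_left
          fun l _ _ => theta_nonneg _
    _ = 1 := h2

/-- the L² norm of a sum of fine pieces of a piece -/
theorem rem_l2 (c : ℂ) (hc : c ≠ 0) (s s' : ℝ) (hs : 0 < s) (hs' : 0 < s') (n : ℤ × ℤ)
    (a : ℂ → ℂ) (ha : Nice a) (F : Finset (ℤ × ℤ)) :
    ∫ ξ, ‖∑ l ∈ F, piece c s' l (piece c s n a) ξ‖ ^ 2 ≤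
      (mu c a).real (sq s n ∩ ⋃ l ∈ F, sq s' l) := by
  apply sa_l2 c a ha
  · exact (sq_meas s n).inter (Finset.measurableSet_biUnion F fun l _ => sq_meas s' l)
  · intro ξ
    have h1 : ∑ l ∈ F, piece c s' l (piece c s n a) ξ =
        ((∑ l ∈ F, sym c s' l ξ : ℝ) : ℂ) * ((sym c s n ξ : ℂ) * a ξ) := by
      rw [Complex.ofReal_sum, Finset.sum_mul]
      rfl
    rw [h1]
    refine (sa_sym_mul_norm _ (Finset.sum_nonneg fun l _ => sym_nonneg _ _ _ _)
      (sa_sym_sum c hc s' hs' F ξ) _).trans ?_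
    exact sa_sym_mul_norm _ (sym_nonneg c s n ξ) (sym_le_one c s n ξ) _
  · intro ξ hξ
    apply Finset.sum_eq_zero
    intro l hl
    by_cases h1 : ξ / c ∈ sq s n
    · have h2 : ξ / c ∉ sq s' l := by
        intro h2
        exact hξ ⟨h1, Set.mem_biUnion (Finset.mem_coe.2 hl) h2⟩
      exact piece_zero c s' hs' l _ ξ h2
    · unfold piece
      rw [sa_sym_zero c s hs n ξ h1]
      simp

/-- the integers at distance at most two from a real -/
theorem sa_near (t : ℝ) (F : Finset ℤ) (hF : ∀ k ∈ F, |t - k| ≤ 2) : F.card ≤ 5 := by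
  have h : F ⊆ Finset.Icc (⌈t⌉ - 2) (⌊t⌋ + 2) := by
    intro k hk
    have := abs_le.1 (hF k hk)
    rw [Finset.mem_Icc]
    constructor
    · have h1 : ⌈t⌉ ≤ k + 2 := by
        rw [Int.ceil_le]
        push_cast
        linarith
      omega
    · have h1 : k - 2 ≤ ⌊t⌋ := by
        rw [Int.le_floor]
        push_cast
        linarith
      omega
  refine (Finset.card_le_card h).trans ?_
  rw [Int.card_Icc]
  have h1 : ⌊t⌋ ≤ ⌈t⌉ := Int.floor_le_ceil t
  omega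

/-- number of squares carrying mass -/
theorem heavy_count (μ : Measure ℂ) [IsFiniteMeasure μ] (s δ : ℝ) (hs : 0 < s) (hδ : 0 < δ)
    (F : Finset (ℤ × ℤ)) (hF : ∀ l ∈ F, δ < μ.real {x | ∃ y ∈ sq s l, dist x y ≤ s}) :
    (F.card : ℝ) * δ ≤ 25 * μ.real univ := by
  classical
  set E : ℤ × ℤ → Set ℂ := fun l => {x | |x.re - s * l.1| ≤ 2 * s ∧ |x.im - s * l.2| ≤ 2 * s}
    with hE
  have hEm : ∀ l, MeasurableSet (E l) := by
    intro l
    have h1 : Measurable (fun k : ℂ => |k.re - s * l.1|) := by fun_prop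
    have h2 : Measurable (fun k : ℂ => |k.im - s * l.2|) := by fun_prop
    exact (measurableSet_le h1 measurable_const).inter (measurableSet_le h2 measurable_const)
  have hsub : ∀ l, {x : ℂ | ∃ y ∈ sq s l, dist x y ≤ s} ⊆ E l := by
    rintro l x ⟨y, ⟨h1, h2⟩, hd⟩
    rw [dist_eq_norm] at hd
    have h3 := (Complex.abs_re_le_norm (x - y)).trans hd
    have h4 := (Complex.abs_im_le_norm (x - y)).trans hd
    rw [Complex.sub_re] at h3
    rw [Complex.sub_im] at h4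
    rw [abs_le] at h1 h2 h3 h4
    constructor <;> rw [abs_le] <;> constructor <;> linarith
  have h1 : (F.card : ℝ) * δ ≤ ∑ l ∈ F, μ.real (E l) := by
    rw [← nsmul_eq_mul, ← Finset.sum_const]
    apply Finset.sum_le_sum
    intro l hl
    exact (hF l hl).le.trans (measureReal_mono (hsub l))
  have h2 : ∑ l ∈ F, μ.real (E l) = ∫ x, ∑ l ∈ F, (E l).indicator (fun _ => (1 : ℝ)) x ∂μ := by
    rw [integral_finsetSum]
    · apply Finset.sum_congr rfl
      intro l _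
      rw [integral_indicator (hEm l)]
      simp
    · intro l _
      exact (integrable_const (1 : ℝ)).indicator (hEm l)
  have h3 : ∀ x, ∑ l ∈ F, (E l).indicator (fun _ => (1 : ℝ)) x ≤ 25 := by
    intro x
    have h4 : ∑ l ∈ F, (E l).indicator (fun _ => (1 : ℝ)) x =
        ((F.filter (fun l => x ∈ E l)).card : ℝ) := by
      rw [Finset.card_filter]
      push_cast
      apply Finset.sum_congr rfl
      intro l _
      by_cases h : x ∈ E l <;> simp [h]
    rw [h4]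
    have h5 : (F.filter (fun l => x ∈ E l)) ⊆
        ((F.filter (fun l => x ∈ E l)).image Prod.fst) ×ˢ
          ((F.filter (fun l => x ∈ E l)).image Prod.snd) := by
      intro l hl
      rw [Finset.mem_product]
      exact ⟨Finset.mem_image_of_mem _ hl, Finset.mem_image_of_mem _ hl⟩
    have key : ∀ (t : ℝ) (k : ℤ), |t - s * k| ≤ 2 * s → |t / s - k| ≤ 2 := by
      intro t k h
      have : t / s - k = (t - s * k) / s := by field_simp
      rw [this, abs_div, abs_of_pos hs, div_le_iff₀ hs]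
      exact h
    have h6 : ((F.filter (fun l => x ∈ E l)).image Prod.fst).card ≤ 5 := by
      apply sa_near (x.re / s)
      intro k hk
      obtain ⟨l, hl, rfl⟩ := Finset.mem_image.1 hk
      exact key _ _ (Finset.mem_filter.1 hl).2.1
    have h7 : ((F.filter (fun l => x ∈ E l)).image Prod.snd).card ≤ 5 := by
      apply sa_near (x.im / s)
      intro k hk
      obtain ⟨l, hl, rfl⟩ := Finset.mem_image.1 hk
      exact key _ _ (Finset.mem_filter.1 hl).2.2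
    have h8 := Finset.card_le_card h5
    rw [Finset.card_product] at h8
    have h9 : (F.filter (fun l => x ∈ E l)).card ≤ 5 * 5 := h8.trans (Nat.mul_le_mul h6 h7)
    exact_mod_cast h9
  calc (F.card : ℝ) * δ ≤ ∑ l ∈ F, μ.real (E l) := h1
    _ = ∫ x, ∑ l ∈ F, (E l).indicator (fun _ => (1 : ℝ)) x ∂μ := h2
    _ ≤ ∫ _, (25 : ℝ) ∂μ := by
        apply integral_mono
        · apply integrable_finsetSum
          intro l _
          exact (integrable_const (1 : ℝ)).indicator (hEm l)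
        · exact integrable_const _
        · exact h3
    _ = 25 * μ.real univ := by
        rw [integral_const, smul_eq_mul, mul_comm]

end Pool.Agent.H24.Tri
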